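import Pool.Agent.Run7.h425.RN.Iface

set_option autoImplicit false

namespace Run7.h633.RN

open MeasureTheory Real Pool.Agent.Run7.h425.RN
open scoped ENNReal

theorem continuous_cs : Continuous cs := by
  unfold cs
  fun_prop

theorem continuous_g (a : ℝ) : Continuous (g a) := by
  unfold g
  exact continuous_const.add (continuous_const.mul continuous_cs)

theorem abs_cs_le (x : Tc) : |cs x| ≤ 1 := by
  unfold cs
  refine (Complex.abs_re_le_norm _).trans ?_
  rw [fourier_apply]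
  exact (Circle.norm_coe _).le

theorem abs_g_le {a : ℝ} (x : Tc) : |g a x| ≤ 2 + 2 * π * |a| := by
  unfold g
  have h1 : |2 * π * a * cs x| ≤ 2 * π * |a| := by
    rw [abs_mul, abs_mul, abs_of_pos (by positivity : (0 : ℝ) < 2 * π)]
    exact mul_le_of_le_one_right (by positivity) (abs_cs_le x)
  calc |2 + 2 * π * a * cs x| ≤ |(2 : ℝ)| + |2 * π * a * cs x| := abs_add_le _ _
    _ ≤ 2 + 2 * π * |a| := by rw [abs_of_pos (by norm_num : (0 : ℝ) < 2)]; linarith

/-- the function `h` -/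
noncomputable def hf (a : ℝ) (x : Tc) : ℝ := 1 / 2 * log (1 + g a x ^ 2)

theorem hf_cont (a : ℝ) : Continuous (hf a) := by
  unfold hf
  refine continuous_const.mul (Continuous.log ?_ ?_)
  · exact continuous_const.add ((continuous_g a).pow 2)
  · intro x
    positivity

theorem hf_nonneg (a : ℝ) (x : Tc) : 0 ≤ hf a x := by
  unfold hf
  have : 0 ≤ log (1 + g a x ^ 2) := log_nonneg (by nlinarith [sq_nonneg (g a x)])
  positivity

theorem hf_le {a : ℝ} (ha : 1 ≤ |a|) (x : Tc) : hf a x ≤ 10 * (1 + log |a|) := by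
  have h1 : |g a x| ≤ 9 * |a| := by
    refine (abs_g_le x).trans ?_
    have := pi_lt_four
    nlinarith [pi_lt_d2]
  have h0 : 0 ≤ log |a| := log_nonneg ha
  unfold hf
  have h2 : 1 + g a x ^ 2 ≤ (10 * |a|) ^ 2 := by
    have : g a x ^ 2 ≤ (9 * |a|) ^ 2 := by
      rw [← sq_abs (g a x)]
      exact pow_le_pow_left₀ (abs_nonneg _) h1 2
    nlinarith
  have h3 : log (1 + g a x ^ 2) ≤ log ((10 * |a|) ^ 2) := log_le_log (by positivity) h2
  have h4 : log ((10 * |a|) ^ 2) = 2 * (log 10 + log |a|) := by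
    rw [log_pow, log_mul (by norm_num) (by linarith)]
    norm_num
  have h5 : log 10 ≤ 9 := by
    have := log_le_sub_one_of_pos (by norm_num : (0 : ℝ) < 10)
    linarith
  rw [h4] at h3
  linarith

/-- the function `q` -/
noncomputable def qf (a : ℝ) (x : Tc) : ℝ := 4 * |g a x| ^ (-(1 / 4) : ℝ)

theorem qf_nonneg (a : ℝ) (x : Tc) : 0 ≤ qf a x := by
  unfold qf; positivity

theorem fst_mp (hSTAT : S_STAT) (a : ℝ) (ω : ℕ → Tc) (n : ℕ) :
    MeasurePreserving (fun p : T2 => (orb a ω p n).1) volume volume := by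
  have h1 : MeasurePreserving (Prod.fst : T2 → Tc) (volume : Measure T2) volume :=
    measurePreserving_fst
  exact h1.comp (hSTAT a ω n)

/-- the bad set -/
def Zs (a K : ℝ) (ω : ℕ → Tc) (N : ℕ) : Set T2 :=
  ⋃ k ∈ Finset.range N, (fun p : T2 => orb a ω p k) ⁻¹' {p | |g a p.1 * g a p.2| < K}

theorem bad1_meas (a K : ℝ) : MeasurableSet {p : T2 | |g a p.1 * g a p.2| < K} := by
  apply measurableSet_lt _ measurable_const
  exact (((continuous_g a).comp continuous_fst).mul
    ((continuous_g a).comp continuous_snd)).abs.measurable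

theorem Zs_meas (hSTAT : S_STAT) (a K : ℝ) (ω : ℕ → Tc) (N : ℕ) : MeasurableSet (Zs a K ω N) := by
  unfold Zs
  refine Finset.measurableSet_biUnion _ fun k _ => ?_
  exact (hSTAT a ω k).measurable (bad1_meas a K)

theorem Zs_vol (hBAD : S_BAD) (hSTAT : S_STAT) {a K : ℝ} (ha : 1 ≤ |a|) (hK : 4 ≤ K)
    (ω : ℕ → Tc) (N : ℕ) :
    (volume : Measure T2).real (Zs a K ω N) ≤ N * (8 * K * (1 + log |a|) / |a| ^ 2) := by
  have h0 : 0 ≤ log |a| := log_nonneg ha
  have hc : 0 ≤ 8 * K * (1 + log |a|) / |a| ^ 2 := by positivity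
  have h1 : (volume : Measure T2) (Zs a K ω N)
      ≤ ENNReal.ofReal (N * (8 * K * (1 + log |a|) / |a| ^ 2)) := by
    unfold Zs
    refine (measure_biUnion_finset_le _ _).trans ?_
    have h2 : ∀ k ∈ Finset.range N, (volume : Measure T2)
        ((fun p : T2 => orb a ω p k) ⁻¹' {p | |g a p.1 * g a p.2| < K})
        ≤ ENNReal.ofReal (8 * K * (1 + log |a|) / |a| ^ 2) := by
      intro k _
      rw [(hSTAT a ω k).measure_preimage (bad1_meas a K).nullMeasurableSet]
      exact hBAD a K ha (by linarith)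
    refine (Finset.sum_le_sum h2).trans ?_
    rw [Finset.sum_const, Finset.card_range, nsmul_eq_mul, ENNReal.ofReal_mul (by positivity),
      ENNReal.ofReal_natCast]
  unfold Measure.real
  exact ENNReal.toReal_le_of_le_ofReal (by positivity) h1

theorem slice {X Y Z : Type*} [TopologicalSpace X] [TopologicalSpace Y] [TopologicalSpace Z]
    {f : X × Y → Z} (hf : Continuous f) (x : X) : Continuous (fun y => f (x, y)) :=
  hf.comp (Continuous.prodMk_right x)

/-- the pointwise lower bound -/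
theorem pointwise (hPTW : S_PTW) (hDET : S_DET) (hBND : S_BND) {a K : ℝ} (ha : 1 ≤ |a|)
    (hK : 4 ≤ K) (ω : ℕ → Tc) (N : ℕ) (p : T2) :
    (∑ k ∈ Finset.range N, (hf a (orb a ω p k).1 - qf a (orb a ω p k).1)) - 4 * N / K
      - (1 + 10 * N * (1 + log |a|)) * (Zs a K ω N).indicator (fun _ => (1 : ℝ)) p
      ≤ log ‖A a ω p N‖ := by
  have h0 : 0 ≤ log |a| := log_nonneg ha
  by_cases hp : p ∈ Zs a K ω N
  · rw [Set.indicator_of_mem hp]
    have h1 : ∑ k ∈ Finset.range N, (hf a (orb a ω p k).1 - qf a (orb a ω p k).1)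
        ≤ ∑ k ∈ Finset.range N, 10 * (1 + log |a|) := by
      apply Finset.sum_le_sum
      intro k _
      have := hf_le ha (orb a ω p k).1
      have := qf_nonneg a (orb a ω p k).1
      linarith
    rw [Finset.sum_const, Finset.card_range, nsmul_eq_mul] at h1
    have h2 : (1 : ℝ) / 2 ≤ ‖A a ω p N‖ := ((hBND a ha).1 ω p N).2
    have h3 : log (1 / 2) ≤ log ‖A a ω p N‖ := log_le_log (by norm_num) h2
    have h4 : -1 ≤ log (1 / 2 : ℝ) := by
      rw [one_div, log_inv]
      have := log_two_lt_d9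
      linarith
    have h5 : 0 ≤ 4 * (N : ℝ) / K := by positivity
    linarith
  · rw [Set.indicator_of_notMem hp]
    have hk : ∀ k < N, K ≤ |g a (orb a ω p k).1 * g a (orb a ω p k).2| := by
      intro k hk
      by_contra hcon
      push Not at hcon
      apply hp
      unfold Zs
      rw [Set.mem_iUnion₂]
      exact ⟨k, Finset.mem_range.2 hk, hcon⟩
    obtain ⟨hne, hlow⟩ := hDET a K hK ω p N hk
    have h1 : ∑ k ∈ Finset.range N, (hf a (orb a ω p k).1 - qf a (orb a ω p k).1)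
        ≤ ∑ k ∈ Finset.range N, log |g a (orb a ω p k).1| := by
      apply Finset.sum_le_sum
      intro k hk'
      have := (hPTW (g a (orb a ω p k).1) (hne k (Finset.mem_range.1 hk'))).1
      unfold hf qf
      linarith
    linarith

theorem logA_bound (hBND : S_BND) {a : ℝ} (ha : 1 ≤ |a|) (ω : ℕ → Tc) (p : T2) (N : ℕ) :
    |log ‖A a ω p N‖| ≤ N * log (10 * |a|) + 1 := by
  obtain ⟨h1, h2⟩ := (hBND a ha).1 ω p N
  have h10 : 0 ≤ log (10 * |a|) := log_nonneg (by linarith)
  have h3 : log ‖A a ω p N‖ ≤ N * log (10 * |a|) := by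
    rw [← log_pow]
    exact log_le_log (by linarith) h1
  have h4 : log (1 / 2) ≤ log ‖A a ω p N‖ := log_le_log (by norm_num) h2
  have h5 : -1 ≤ log (1 / 2 : ℝ) := by
    rw [one_div, log_inv]
    have := log_two_lt_d9
    linarith
  have h6 : 0 ≤ (N : ℝ) * log (10 * |a|) := by positivity
  rw [abs_le]
  constructor <;> linarith

theorem logA_cont (hCONT : S_CONT) (hBND : S_BND) {a : ℝ} (ha : 1 ≤ |a|) (N : ℕ) :
    Continuous (fun q : (ℕ → Tc) × T2 => log ‖A a q.1 q.2 N‖) := by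
  refine Continuous.log (hCONT a N).2.norm ?_
  intro q h
  have := ((hBND a ha).1 q.1 q.2 N).2
  rw [h] at this
  linarith

theorem int_split {α : Type*} [MeasurableSpace α] {μ : Measure α} [IsProbabilityMeasure μ]
    {S : α → ℝ} (hS : Integrable S μ) (c d : ℝ) {Z : Set α} (hZ : MeasurableSet Z) :
    ∫ p, (S p - c - d * Z.indicator (fun _ => (1 : ℝ)) p) ∂μ = (∫ p, S p ∂μ) - c - d * μ.real Z := by
  have h1 : Integrable (fun p => d * Z.indicator (fun _ => (1 : ℝ)) p) μ :=
    ((integrable_const (1 : ℝ)).indicator hZ).const_mul _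
  have h2 : Integrable (fun p => S p - c) μ := hS.sub (integrable_const c)
  have e1 : ∫ p, (S p - c - d * Z.indicator (fun _ => (1 : ℝ)) p) ∂μ
      = (∫ p, (S p - c) ∂μ) - ∫ p, d * Z.indicator (fun _ => (1 : ℝ)) p ∂μ := integral_sub h2 h1
  have e2 : ∫ p, (S p - c) ∂μ = (∫ p, S p ∂μ) - ∫ _, c ∂μ := integral_sub hS (integrable_const c)
  rw [e1, e2, integral_const_mul, integral_indicator_const _ hZ, integral_const]
  simp

theorem int_comp {f : Tc → ℝ} {φ : T2 → Tc} (hφ : MeasurePreserving φ volume volume)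
    (hf : AEStronglyMeasurable f volume) : ∫ p, f (φ p) = ∫ x, f x := by
  have h1 : AEStronglyMeasurable f (Measure.map φ volume) := by
    rw [hφ.map_eq]; exact hf
  have h2 := integral_map hφ.measurable.aemeasurable h1
  rw [hφ.map_eq] at h2
  exact h2.symm

theorem int_sum {α : Type*} [MeasurableSpace α] {μ : Measure α} (N : ℕ) {f : ℕ → α → ℝ}
    (hf : ∀ k, Integrable (f k) μ) {c : ℝ} (hc : ∀ k, ∫ p, f k p ∂μ = c) :
    ∫ p, (∑ k ∈ Finset.range N, f k p) ∂μ = N * c := by
  rw [integral_finsetSum _ fun k _ => hf k, Finset.sum_congr rfl fun k _ => hc k,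
    Finset.sum_const, Finset.card_range, nsmul_eq_mul]

theorem inner_low (hBAD : S_BAD) (hHHM : S_HHM) (hNEG : S_NEG) (hPTW : S_PTW) (hDET : S_DET)
    (hSTAT : S_STAT) (hCONT : S_CONT) (hBND : S_BND) {a K : ℝ} (ha : 1 ≤ |a|) (hK : 4 ≤ K)
    (ω : ℕ → Tc) (N : ℕ) (hN : 1 ≤ N) :
    N * (log (π * |a|) - 88 * (1 / K + |a| ^ (-(1 / 4) : ℝ) +
      N * K * (1 + log |a|) ^ 2 / |a| ^ 2)) ≤ ∫ p : T2, log ‖A a ω p N‖ := by
  have h0 : 0 ≤ log |a| := log_nonneg ha
  have hmp := fun k => fst_mp hSTAT a ω k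
  -- integrability
  have hhi : ∀ k, Integrable (fun p : T2 => hf a (orb a ω p k).1) := by
    intro k
    refine Integrable.of_bound ?_ (10 * (1 + log |a|)) (Filter.Eventually.of_forall fun p => ?_)
    · exact ((hf_cont a).measurable.comp (hmp k).measurable).aestronglyMeasurable
    · rw [Real.norm_of_nonneg (hf_nonneg _ _)]
      exact hf_le ha _
  have hq0 : Integrable (qf a) := by
    unfold qf
    exact (hNEG a ha).1.const_mul 4
  have hqi : ∀ k, Integrable (fun p : T2 => qf a (orb a ω p k).1) := by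
    intro k
    exact (hmp k).integrable_comp_of_integrable hq0
  have hhint : ∀ k, ∫ p : T2, hf a (orb a ω p k).1 = ∫ x : Tc, hf a x :=
    fun k => int_comp (hmp k) (hf_cont a).aestronglyMeasurable
  have hqint : ∀ k, ∫ p : T2, qf a (orb a ω p k).1 = ∫ x : Tc, qf a x :=
    fun k => int_comp (hmp k) hq0.aestronglyMeasurable
  have hH : log (π * |a|) ≤ ∫ x : Tc, hf a x := (hHHM a ha).1
  have hQ : ∫ x : Tc, qf a x ≤ 32 * |a| ^ (-(1 / 4) : ℝ) := by
    unfold qf
    rw [integral_const_mul]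
    have := (hNEG a ha).2
    linarith
  have hlogi : Integrable (fun p : T2 => log ‖A a ω p N‖) := by
    refine Integrable.of_bound ?_ (N * log (10 * |a|) + 1)
      (Filter.Eventually.of_forall fun p => ?_)
    · have hc := slice (logA_cont hCONT hBND ha N) ω
      exact hc.aestronglyMeasurable
    · exact logA_bound hBND ha ω p N
  have hZm := Zs_meas hSTAT a K ω N
  have hfi : ∀ k, Integrable (fun p : T2 => hf a (orb a ω p k).1 - qf a (orb a ω p k).1) :=
    fun k => (hhi k).sub (hqi k)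
  have hfc : ∀ k, ∫ p : T2, (hf a (orb a ω p k).1 - qf a (orb a ω p k).1)
      = (∫ x : Tc, hf a x) - ∫ x : Tc, qf a x := by
    intro k
    rw [integral_sub (hhi k) (hqi k), hhint k, hqint k]
  have hsumi : Integrable (fun p : T2 => ∑ k ∈ Finset.range N,
      (hf a (orb a ω p k).1 - qf a (orb a ω p k).1)) :=
    integrable_finsetSum _ fun k _ => hfi k
  have hsumv := int_sum N hfi hfc
  have hindi : Integrable (fun p : T2 => (1 + 10 * N * (1 + log |a|)) *
      (Zs a K ω N).indicator (fun _ => (1 : ℝ)) p) :=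
    ((integrable_const (1 : ℝ)).indicator hZm).const_mul _
  have hcmp : ∫ p : T2, ((∑ k ∈ Finset.range N, (hf a (orb a ω p k).1 - qf a (orb a ω p k).1))
      - 4 * N / K - (1 + 10 * N * (1 + log |a|)) *
        (Zs a K ω N).indicator (fun _ => (1 : ℝ)) p) ≤ ∫ p : T2, log ‖A a ω p N‖ :=
    integral_mono ((hsumi.sub (integrable_const _)).sub hindi) hlogi
      (fun p => pointwise hPTW hDET hBND ha hK ω N p)
  have hval := int_split (μ := (volume : Measure T2)) hsumi (4 * N / K)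
    (1 + 10 * N * (1 + log |a|)) hZm
  rw [hsumv] at hval
  rw [hval] at hcmp
  refine le_trans ?_ hcmp
  have hvol := Zs_vol hBAD hSTAT ha hK ω N
  have hN1 : (1 : ℝ) ≤ N := by exact_mod_cast hN
  have hfac : 1 + 10 * (N : ℝ) * (1 + log |a|) ≤ 11 * N * (1 + log |a|) := by nlinarith
  have ha2 : 0 < |a| ^ 2 := by positivity
  have hprod : (1 + 10 * (N : ℝ) * (1 + log |a|)) * (volume : Measure T2).real (Zs a K ω N)
      ≤ 11 * N * (1 + log |a|) * (N * (8 * K * (1 + log |a|) / |a| ^ 2)) :=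
    mul_le_mul hfac hvol measureReal_nonneg (by positivity)
  have e1 : 11 * (N : ℝ) * (1 + log |a|) * (N * (8 * K * (1 + log |a|) / |a| ^ 2))
      = N * (88 * (N * K * (1 + log |a|) ^ 2 / |a| ^ 2)) := by ring
  rw [e1] at hprod
  have hNn : (0 : ℝ) ≤ N := by positivity
  have m1 : (N : ℝ) * (log (π * |a|) - 32 * |a| ^ (-(1 / 4) : ℝ))
      ≤ N * ((∫ x : Tc, hf a x) - ∫ x : Tc, qf a x) :=
    mul_le_mul_of_nonneg_left (by linarith) hNn
  have hpw : 0 ≤ |a| ^ (-(1 / 4) : ℝ) := by positivity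
  have hK1 : 0 ≤ 1 / K := by positivity
  have e2 : 4 * (N : ℝ) / K = N * (4 * (1 / K)) := by ring
  rw [e2]
  have m2 : (N : ℝ) * (4 * (1 / K)) ≤ N * (88 * (1 / K)) :=
    mul_le_mul_of_nonneg_left (by linarith) hNn
  have m3 : (N : ℝ) * (32 * |a| ^ (-(1 / 4) : ℝ)) ≤ N * (88 * |a| ^ (-(1 / 4) : ℝ)) :=
    mul_le_mul_of_nonneg_left (by linarith) hNn
  nlinarith [m1, m2, m3, hprod]

theorem t_LOW (hBAD : S_BAD) (hHHM : S_HHM) (hNEG : S_NEG) (hPTW : S_PTW) (hDET : S_DET)
    (hSTAT : S_STAT) (hCONT : S_CONT) (hBND : S_BND) : S_LOW := by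
  refine ⟨88, by norm_num, ?_⟩
  intro ν _ a K ha hK N hN
  unfold Lam
  have hint : Integrable (fun ω : ℕ → Tc => ∫ p : T2, log ‖A a ω p N‖) (PP ν) := by
    refine Integrable.of_bound ?_ (N * log (10 * |a|) + 1)
      (Filter.Eventually.of_forall fun ω => ?_)
    · have hm : StronglyMeasurable (fun q : (ℕ → Tc) × T2 => log ‖A a q.1 q.2 N‖) :=
        (logA_cont hCONT hBND ha N).measurable.stronglyMeasurable
      exact hm.integral_prod_right'.aestronglyMeasurable
    · refine (norm_integral_le_of_norm_le_const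
        (Filter.Eventually.of_forall fun p => logA_bound hBND ha ω p N)).trans ?_
      simp
  have h1 : ∫ _ : ℕ → Tc, (N * (log (π * |a|) - 88 * (1 / K + |a| ^ (-(1 / 4) : ℝ) +
      N * K * (1 + log |a|) ^ 2 / |a| ^ 2))) ∂(PP ν)
      ≤ ∫ ω, ∫ p : T2, log ‖A a ω p N‖ ∂volume ∂(PP ν) :=
    integral_mono (integrable_const _) hint
      (fun ω => inner_low hBAD hHHM hNEG hPTW hDET hSTAT hCONT hBND ha hK ω N hN)
  rw [integral_const] at h1
  simpa using h1

end Run7.h633.RN
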